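import Pool.Agent.K3h76.OV.Glue

set_option autoImplicit false
set_option linter.unusedSectionVars false

/-!
# Sums of degrees; the components of a set of circuits
-/

namespace Pool.Agent.K3h76.OV

open Finset Pool.Agent.TH676.Z Pool.Agent.TH676.Z.Crit

variable {V E : Type} [Fintype V] [DecidableEq V] [Fintype E] [DecidableEq E]

theorem sum_deg (src dst : E → V) (A : Finset E) (hA : ∀ e ∈ A, src e ≠ dst e) (Y : Finset V) :
    ∑ x ∈ Y, (A.filter (fun e => src e = x ∨ dst e = x)).card =
      ∑ e ∈ A, ((if src e ∈ Y then 1 else 0) + (if dst e ∈ Y then 1 else 0)) := by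
  have h1 : ∀ x, (A.filter (fun e => src e = x ∨ dst e = x)).card =
      ∑ e ∈ A, ((if src e = x then 1 else 0) + (if dst e = x then 1 else 0)) := by
    intro x
    rw [card_filter]
    refine sum_congr rfl fun e he => ?_
    have h2 := hA e he
    by_cases h3 : src e = x <;> by_cases h4 : dst e = x <;> simp [h3, h4]
    exact absurd (h3.trans h4.symm) h2
  rw [sum_congr rfl (fun x _ => h1 x), sum_comm]
  refine sum_congr rfl fun e _ => ?_
  rw [sum_add_distrib, sum_ite_eq, sum_ite_eq]

theorem parity_deg (src dst : E → V) (A : Finset E) (hA : ∀ e ∈ A, src e ≠ dst e) (Y : Finset V) :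
    Even (∑ x ∈ Y, (A.filter (fun e => src e = x ∨ dst e = x)).card +
      (crs src dst Y ∩ A).card) := by
  have h1 : (crs src dst Y ∩ A).card = ∑ e ∈ A, if (src e ∈ Y ↔ dst e ∈ Y) then 0 else 1 := by
    rw [inter_comm, ← filter_mem_eq_inter, card_filter]
    refine sum_congr rfl fun e _ => ?_
    by_cases h : (src e ∈ Y ↔ dst e ∈ Y)
    · rw [if_pos h, if_neg (fun h2 => mem_crs.1 h2 h)]
    · rw [if_neg h, if_pos (mem_crs.2 h)]
  rw [sum_deg src dst A hA, h1, ← sum_add_distrib]
  refine even_sum _ fun e _ => ?_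
  by_cases h3 : src e ∈ Y <;> by_cases h4 : dst e ∈ Y <;> simp [h3, h4]

/-- the edges of a component -/
def ce (src : E → V) (F : Finset E) (X : Finset V) : Finset E := F.filter (fun e => src e ∈ X)

theorem ce_dst {src dst : E → V} {F : Finset E} {x : V} {e : E} (he : e ∈ F) :
    src e ∈ cmp src dst F x ↔ dst e ∈ cmp src dst F x := by
  rw [mem_cmp, mem_cmp]
  constructor
  · exact fun h => h.trans _ _ _ (Relation.EqvGen.rel _ _ ⟨e, he, rfl, rfl⟩)
  · exact fun h => h.trans _ _ _ ((Relation.EqvGen.rel _ _ ⟨e, he, rfl, rfl⟩).symm _ _)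

theorem ce_card {src dst : E → V} {F : Finset E} (hF : ∀ e ∈ F, src e ≠ dst e)
    (hd : ∀ v, (F.filter (fun e => src e = v ∨ dst e = v)).card = 0 ∨
      (F.filter (fun e => src e = v ∨ dst e = v)).card = 2) (x : V) :
    (ce src F (cmp src dst F x)).card ≤ (cmp src dst F x).card := by
  obtain ⟨X, hX⟩ : ∃ X, X = cmp src dst F x := ⟨_, rfl⟩
  rw [← hX]
  have h1 := sum_deg src dst F hF X
  have h2 : ∑ e ∈ F, ((if src e ∈ X then 1 else 0) + (if dst e ∈ X then 1 else 0)) =
      2 * (ce src F X).card := by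
    unfold ce
    rw [card_filter, mul_sum]
    refine sum_congr rfl fun e he => ?_
    have h3 : src e ∈ X ↔ dst e ∈ X := by rw [hX]; exact ce_dst he
    by_cases h4 : src e ∈ X
    · simp [h4, h3.1 h4]
    · simp [h4, mt h3.2 h4]
  have h3 : ∑ x ∈ X, (F.filter (fun e => src e = x ∨ dst e = x)).card ≤ ∑ x ∈ X, 2 :=
    sum_le_sum fun v _ => by rcases hd v with h | h <;> omega
  rw [h1, h2, sum_const, smul_eq_mul] at h3
  omega

theorem ce_cut {src dst : E → V} {F : Finset E} (hF : ∀ e ∈ F, src e ≠ dst e)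
    (hd : ∀ v, (F.filter (fun e => src e = v ∨ dst e = v)).card = 0 ∨
      (F.filter (fun e => src e = v ∨ dst e = v)).card = 2) (x : V) (Y : Finset V) :
    (crs src dst Y ∩ ce src F (cmp src dst F x)).card ≠ 1 := by
  obtain ⟨X, hX⟩ : ∃ X, X = cmp src dst F x := ⟨_, rfl⟩
  rw [← hX]
  have h1 := parity_deg src dst (ce src F X) (fun e he => hF e (mem_filter.1 he).1) Y
  have h2 : Even (∑ x ∈ Y, ((ce src F X).filter (fun e => src e = x ∨ dst e = x)).card) := by
    refine even_sum _ fun v _ => ?_
    by_cases hv : v ∈ X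
    · have h3 : (ce src F X).filter (fun e => src e = v ∨ dst e = v) =
          F.filter (fun e => src e = v ∨ dst e = v) := by
        ext e
        rw [mem_filter, mem_filter, ce, mem_filter]
        constructor
        · exact fun h => ⟨h.1.1, h.2⟩
        · rintro ⟨h4, h5⟩
          refine ⟨⟨h4, ?_⟩, h5⟩
          rcases h5 with h5 | h5
          · rwa [h5]
          · have := (ce_dst (src := src) (dst := dst) (x := x) h4).2
            rw [← hX, h5] at this
            exact this hv
      rw [h3]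
      rcases hd v with h | h <;> rw [h] <;> decide
    · have h3 : (ce src F X).filter (fun e => src e = v ∨ dst e = v) = ∅ := by
        rw [filter_eq_empty_iff]
        intro e he h5
        rw [ce, mem_filter] at he
        rcases h5 with h5 | h5
        · exact hv (h5 ▸ he.2)
        · have := (ce_dst (src := src) (dst := dst) (x := x) he.1).1
          rw [← hX, h5] at this
          exact hv (this he.2)
      rw [h3, card_empty]
      exact Even.zero
  intro h3
  rw [h3, Nat.even_add] at h1
  exact absurd (h1.1 h2) (by decide)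

theorem odd_crs {src dst : E → V} (hc : ∀ v, (st src dst v).card = 3) (X : Finset V) :
    Odd (crs src dst X).card ↔ Odd X.card := by
  obtain ⟨A, hA⟩ : ∃ A : Finset E, A = univ.filter (fun e => src e ≠ dst e) := ⟨_, rfl⟩
  have h1 := parity_deg src dst A (fun e he => by rw [hA, mem_filter] at he; exact he.2) X
  have h2 : crs src dst X ∩ A = crs src dst X := by
    rw [inter_eq_left]
    intro e he
    rw [hA, mem_filter]
    refine ⟨mem_univ _, fun h => ?_⟩
    rw [mem_crs, h] at he
    exact he Iff.rfl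
  have h3 : ∀ x, A.filter (fun e => src e = x ∨ dst e = x) = st src dst x := by
    intro x
    ext e
    rw [hA, mem_filter, mem_filter, mem_st]
    simp
  rw [h2, sum_congr rfl (fun x _ => by rw [h3, hc]), sum_const, smul_eq_mul] at h1
  rw [Nat.even_iff] at h1
  rw [Nat.odd_iff, Nat.odd_iff]
  omega

/-- the chain for the components of `F` -/
theorem cub_chain (src dst : E → V) (F : Finset E) (hF : ∀ e ∈ F, src e ≠ dst e)
    (hd : ∀ v, (F.filter (fun e => src e = v ∨ dst e = v)).card = 0 ∨
      (F.filter (fun e => src e = v ∨ dst e = v)).card = 2)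
    (h11 : ∀ x, (cmp src dst F x).card ≤ 11) :
    ∃ (m : ℕ) (C : Fin m → Finset E), (∀ i, (C i \ erl C i).card ≤ 11) ∧
      (∀ i, ∀ Y : Finset V, (crs src dst Y ∩ C i).card ≠ 1) ∧ univ.biUnion C = F := by
  classical
  obtain ⟨P, hP⟩ : ∃ P : Finset (Finset V), P = univ.image (cmp src dst F) := ⟨_, rfl⟩
  have hPx : ∀ X : P, ∃ x, (X : Finset V) = cmp src dst F x := by
    rintro ⟨X, hX⟩
    rw [hP, mem_image] at hX
    obtain ⟨x, _, hx⟩ := hX
    exact ⟨x, hx.symm⟩
  refine ⟨P.card, fun i => ce src F (P.equivFin.symm i : Finset V), fun i => ?_, fun i Y => ?_, ?_⟩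
  · obtain ⟨x, hx⟩ := hPx (P.equivFin.symm i)
    refine (card_le_card sdiff_subset).trans ?_
    show (ce src F (P.equivFin.symm i : Finset V)).card ≤ 11
    rw [hx]
    exact (ce_card hF hd x).trans (h11 x)
  · obtain ⟨x, hx⟩ := hPx (P.equivFin.symm i)
    show (crs src dst Y ∩ ce src F (P.equivFin.symm i : Finset V)).card ≠ 1
    rw [hx]
    exact ce_cut hF hd x Y
  · ext e
    rw [mem_biUnion]
    constructor
    · rintro ⟨i, _, hi⟩
      exact (mem_filter.1 hi).1
    · intro he
      have h1 : cmp src dst F (src e) ∈ P := by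
        rw [hP]
        exact mem_image_of_mem _ (mem_univ _)
      refine ⟨P.equivFin ⟨_, h1⟩, mem_univ _, ?_⟩
      rw [Equiv.symm_apply_apply]
      exact mem_filter.2 ⟨he, mem_cmp.2 (Relation.EqvGen.refl _)⟩

end Pool.Agent.K3h76.OV
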