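import Pool.Agent.K3h76.OV.Main
import Pool.Agent.TH676.Z.Three

set_option autoImplicit false
set_option linter.unusedSectionVars false

/-!
# Gluing of flows at cuts with at most three edges
-/

namespace Pool.Agent.K3h76.OV

open Finset Pool.Agent.TH676.Z Pool.Agent.TH676.Z.Crit

variable {V E : Type} [Fintype V] [DecidableEq V] [Fintype E] [DecidableEq E]

/-- all elements of `Y` are replaced by `y` -/
def col (Y : Finset V) (y x : V) : V := if x ∈ Y then y else x

theorem br_comp {src dst : E → V} (h : Br src dst ∅ ∅) (r : V → V) :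
    Br (r ∘ src) (r ∘ dst) ∅ ∅ := by
  intro Y _
  rw [sdiff_empty]
  have h1 : crs (r ∘ src) (r ∘ dst) Y = crs src dst (univ.filter (fun x => r x ∈ Y)) := by
    ext e
    rw [mem_crs, mem_crs]
    simp
  rw [h1]
  have := h (univ.filter (fun x => r x ∈ Y)) (disjoint_empty_right _)
  rwa [sdiff_empty] at this

theorem bd_col {src dst : E → V} {Y : Finset V} {y : V} (hy : y ∈ Y) {f : E → ZMod 5}
    (h : ∀ v, bd (col Y y ∘ src) (col Y y ∘ dst) f v = 0) {v : V} (hv : v ∉ Y) :
    bd src dst f v = 0 := by
  rw [← h v]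
  unfold bd
  refine sum_congr rfl fun e _ => ?_
  have h1 : ∀ x, col Y y x = v ↔ x = v := by
    intro x
    unfold col
    split_ifs with hx
    · constructor
      · rintro rfl
        exact absurd hy hv
      · rintro rfl
        exact absurd hx hv
    · rfl
  simp only [Function.comp, h1]

/-- the signed sum over the cut -/
theorem cut_zero {src dst : E → V} {Y : Finset V} {f : E → ZMod 5}
    (h : ∀ v ∈ Y, bd src dst f v = 0) :
    ∑ e ∈ crs src dst Y, (if src e ∈ Y then f e else - f e) = 0 := by
  have h1 := Three.sum_bd src dst f Y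
  rw [sum_eq_zero h] at h1
  rw [h1, ← sum_subset (subset_univ (crs src dst Y))]
  · refine sum_congr rfl fun e he => ?_
    rw [mem_crs] at he
    by_cases h2 : src e ∈ Y
    · have h3 : dst e ∉ Y := fun h => he ⟨fun _ => h, fun _ => h2⟩
      simp [h2, h3]
    · have h3 : dst e ∈ Y := by
        by_contra h
        exact he ⟨fun h4 => absurd h4 h2, fun h4 => absurd h4 h⟩
      simp [h2, h3]
  · intro e _ he
    rw [mem_crs, not_not] at he
    by_cases h4 : src e ∈ Y
    · rw [if_pos h4, if_pos (he.1 h4), sub_self, mul_zero]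
    · rw [if_neg h4, if_neg (fun h => h4 (he.2 h)), sub_self, mul_zero]

theorem cut_zero' {src dst : E → V} {Y : Finset V} {f : E → ZMod 5}
    (h : ∀ v, v ∉ Y → bd src dst f v = 0) :
    ∑ e ∈ crs src dst Y, (if src e ∈ Y then f e else - f e) = 0 := by
  have h1 := cut_zero (src := src) (dst := dst) (Y := Yᶜ) (f := f)
    (fun v hv => h v (mem_compl.1 hv))
  rw [crs_compl] at h1
  rw [← neg_eq_zero, ← sum_neg_distrib, ← h1]
  refine sum_congr rfl fun e _ => ?_
  by_cases h2 : src e ∈ Y
  · rw [if_pos h2, if_neg (by simpa using h2)]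
  · rw [if_neg h2, if_pos (by simpa using h2), neg_neg]

/-- gluing -/
theorem glue {src dst : E → V} (hbr : Br src dst ∅ ∅) {Y : Finset V} {y z : V} (hy : y ∈ Y)
    (hz : z ∉ Y) (hc : (crs src dst Y).card ≤ 3)
    (h1 : FlowOn (col Y y ∘ src) (col Y y ∘ dst) ∅ ∅)
    (h2 : FlowOn (col Yᶜ z ∘ src) (col Yᶜ z ∘ dst) ∅ ∅) : FlowOn src dst ∅ ∅ := by
  obtain ⟨f, f1, -, f3⟩ := h1
  obtain ⟨g, g1, -, g3⟩ := h2
  have f0 : ∀ e, f e ≠ 0 := fun e => f3 e (notMem_empty _) (notMem_empty _)
  have g0 : ∀ e, g e ≠ 0 := fun e => g3 e (notMem_empty _) (notMem_empty _)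
  have hf : ∀ v, v ∉ Y → bd src dst f v = 0 := fun v hv => bd_col hy f1 hv
  have hg : ∀ v ∈ Y, bd src dst g v = 0 := fun v hv =>
    bd_col (Y := Yᶜ) (mem_compl.2 hz) g1 (by rw [mem_compl, not_not]; exact hv)
  have sf := cut_zero' hf
  have sg := cut_zero hg
  -- the values on the cut
  obtain ⟨g', k1, k2, k3⟩ : ∃ g' : E → ZMod 5, (∀ v ∈ Y, bd src dst g' v = 0) ∧
      (∀ e, (src e ∈ Y ∨ dst e ∈ Y) → g' e ≠ 0) ∧ ∀ e ∈ crs src dst Y, g' e = f e := by
    have hne1 : (crs src dst Y).card ≠ 1 := by
      have := hbr Y (disjoint_empty_right _)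
      rwa [sdiff_empty] at this
    rcases (by omega : (crs src dst Y).card = 0 ∨ (crs src dst Y).card = 2 ∨
      (crs src dst Y).card = 3) with h | h | h
    · refine ⟨g, hg, fun e _ => g0 e, fun e he => ?_⟩
      rw [card_eq_zero] at h
      rw [h] at he
      exact absurd he (notMem_empty _)
    · obtain ⟨a, b, hab, hK⟩ := card_eq_two.1 h
      rw [hK, sum_pair hab] at sf sg
      -- signed values
      obtain ⟨t, ht⟩ : ∃ t : ZMod 5, t = f a * (g a)⁻¹ := ⟨_, rfl⟩
      have hprime : Fact (Nat.Prime 5) := ⟨by norm_num⟩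
      have ht0 : t ≠ 0 := by
        rw [ht]
        exact mul_ne_zero (f0 a) (inv_ne_zero (g0 a))
      have hta : t * g a = f a := by
        rw [ht, mul_assoc, inv_mul_cancel₀ (g0 a), mul_one]
      have htb : t * g b = f b := by
        by_cases ha : src a ∈ Y <;> by_cases hb : src b ∈ Y
        · rw [if_pos ha, if_pos hb] at sf sg
          rw [eq_neg_of_add_eq_zero_right sf, eq_neg_of_add_eq_zero_right sg, mul_neg, hta]
        · rw [if_pos ha, if_neg hb] at sf sg
          rw [← sub_eq_add_neg, sub_eq_zero] at sf sg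
          rw [← sf, ← sg, hta]
        · rw [if_neg ha, if_pos hb] at sf sg
          rw [neg_add_eq_zero] at sf sg
          rw [← sf, ← sg, hta]
        · rw [if_neg ha, if_neg hb] at sf sg
          rw [← neg_add, neg_eq_zero] at sf sg
          rw [eq_neg_of_add_eq_zero_right sf, eq_neg_of_add_eq_zero_right sg, mul_neg, hta]
      refine ⟨fun e => t * g e, fun v hv => ?_, fun e _ => mul_ne_zero ht0 (g0 e), fun e he => ?_⟩
      · rw [Three.bd_smul, hg v hv, mul_zero]
      · rw [hK, mem_insert, mem_singleton] at he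
        rcases he with rfl | rfl
        · exact hta
        · exact htb
    · exact three V E src dst Y h g hg (fun e _ => g0 e) f (fun e _ => f0 e) sf
  refine ⟨fun e => if src e ∈ Y ∨ dst e ∈ Y then g' e else f e, fun v => ?_,
    fun e he => absurd he (notMem_empty _), fun e _ _ => ?_⟩
  · by_cases hv : v ∈ Y
    · refine Eq.trans ?_ (k1 v hv)
      unfold bd
      refine sum_congr rfl fun e _ => ?_
      by_cases h3 : src e = v
      · have h4 : src e ∈ Y := h3 ▸ hv
        simp [h4]
      · by_cases h5 : dst e = v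
        · have h4 : dst e ∈ Y := h5 ▸ hv
          simp [h4]
        · simp [h3, h5]
    · refine Eq.trans ?_ (hf v hv)
      unfold bd
      refine sum_congr rfl fun e _ => ?_
      have key : (src e = v ∨ dst e = v) →
          (if src e ∈ Y ∨ dst e ∈ Y then g' e else f e) = f e := by
        intro h3
        by_cases h4 : src e ∈ Y ∨ dst e ∈ Y
        · rw [if_pos h4]
          apply k3
          rw [mem_crs]
          intro h5
          rcases h3 with h3 | h3
          · have h6 : src e ∉ Y := by rw [h3]; exact hv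
            exact h6 (h4.elim id (fun h7 => h5.2 h7))
          · have h6 : dst e ∉ Y := by rw [h3]; exact hv
            exact h6 (h4.elim (fun h7 => h5.1 h7) id)
        · rw [if_neg h4]
      by_cases h3 : src e = v
      · have := key (Or.inl h3)
        simp only [this]
      · by_cases h4 : dst e = v
        · have := key (Or.inr h4)
          simp only [this]
        · simp [h3, h4]
  · show (if src e ∈ Y ∨ dst e ∈ Y then g' e else f e) ≠ 0
    split_ifs with h
    · exact k2 e h
    · exact f0 e

end Pool.Agent.K3h76.OV
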