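import Pool.Agent.K3h76.OV.Split
import Pool.Agent.Y335.FL.Main
import Pool.Agent.Y335.FL.Local11
import Pool.Agent.Y358.IN.Ind2

set_option autoImplicit false
set_option linter.unusedSectionVars false

/-!
# Vertices of even degree do not matter

The class of the graphs with a set `S` of vertices such that every independent set `I` of vertices
of odd degree outside `S` satisfies `2 |I| + |S| ≤ 125`; chains of sets with at most eleven new
edges.
-/

namespace Pool.Agent.K3h76.OV

open Finset Pool.Agent.TH676.Z Pool.Agent.TH676.Z.Crit Pool.Agent.Y335.FL Pool.Agent.Y358.IN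

section

variable {V E : Type} [Fintype V] [DecidableEq V] [Fintype E] [DecidableEq E]

/-- the class -/
def ClO (src dst : E → V) : Prop := ∃ S : Finset V, ∀ I : Finset V, (∀ x ∈ I, x ∉ S) →
  (∀ x ∈ I, Odd (dg src dst x)) → (∀ x ∈ I, ∀ y ∈ I, ¬ Adj src dst x y) →
    2 * I.card + S.card ≤ 125

theorem mv_inj {v : V} {A : Finset E} {src dst : E → V} {e : E} :
    mv v A src e = mv v A dst e ↔ src e = dst e := by
  unfold mv
  constructor
  · intro h
    split_ifs at h with h1 h2 h2
    · rw [h1.2, h2.2]
    · exact Option.some.inj h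
  · intro h
    rw [h]

theorem st_none {v : V} {A : Finset E} {src dst : E → V} (hA : A ⊆ st src dst v) :
    st (mv v A src) (mv v A dst) none = A := by
  ext e
  rw [mem_st, mv_eq_none, mv_eq_none, Ne, mv_inj]
  constructor
  · rintro ⟨_, h | h⟩
    · exact h.1
    · exact h.1
  · intro h
    have h1 := mem_st.1 (hA h)
    exact ⟨h1.1, h1.2.imp (fun h2 => ⟨h, h2⟩) (fun h2 => ⟨h, h2⟩)⟩

theorem st_some {v : V} {A : Finset E} {src dst : E → V} {x : V} (hx : x ≠ v) :
    st (mv v A src) (mv v A dst) (some x) = st src dst x := by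
  ext e
  rw [mem_st, mem_st, mv_eq_some, mv_eq_some, Ne, mv_inj]
  simp [hx]

theorem st_v {v : V} {A : Finset E} {src dst : E → V} :
    st (mv v A src) (mv v A dst) (some v) = st src dst v \ A := by
  ext e
  rw [mem_st, mem_sdiff, mem_st, mv_eq_some, mv_eq_some, Ne, mv_inj]
  simp only [and_true]
  tauto

theorem dg_st (src dst : E → V) (x : V) : dg src dst x = (st src dst x).card := rfl

/-- the excess of the vertices of even degree -/
def mu (src dst : E → V) : ℕ := ∑ x, if Even (dg src dst x) then dg src dst x - 2 else 0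

/-- the new graph is in the class -/
theorem clO_mv {src dst : E → V} (h : ClO src dst) {v : V} (hv : Even (dg src dst v))
    {e1 e2 : E} (h1 : e1 ∈ st src dst v) (h2 : e2 ∈ st src dst v) (h12 : e1 ≠ e2) :
    ClO (mv v {e1, e2} src) (mv v {e1, e2} dst) := by
  obtain ⟨S, hS⟩ := h
  have hA : ({e1, e2} : Finset E) ⊆ st src dst v := by
    intro e he
    rw [mem_insert, mem_singleton] at he
    rcases he with rfl | rfl
    · exact h1
    · exact h2
  have hA2 : ({e1, e2} : Finset E).card = 2 := card_pair h12
  refine ⟨S.image some, fun I hIS hodd hind => ?_⟩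
  have hnone : none ∉ I := by
    intro h
    have := hodd none h
    rw [dg_st, st_none hA, hA2] at this
    exact absurd this (by decide)
  have hvI : some v ∉ I := by
    intro h
    have := hodd (some v) h
    rw [dg_st, st_v, card_sdiff_of_subset hA, hA2] at this
    have h5 := card_le_card hA
    rw [hA2] at h5
    rw [dg_st] at hv
    rw [Nat.even_iff] at hv
    rw [Nat.odd_iff] at this
    omega
  obtain ⟨J, hJ⟩ : ∃ J : Finset V, J = univ.filter (fun x => some x ∈ I) := ⟨_, rfl⟩
  have hmJ : ∀ x, x ∈ J ↔ some x ∈ I := fun x => by simp [hJ]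
  have hIJ : I = J.image some := by
    ext o
    rw [mem_image]
    constructor
    · intro ho
      cases o with
      | none => exact absurd ho hnone
      | some x => exact ⟨x, (hmJ x).2 ho, rfl⟩
    · rintro ⟨x, hx, rfl⟩
      exact (hmJ x).1 hx
  have hxv : ∀ x ∈ J, x ≠ v := by
    rintro x hx rfl
    exact hvI ((hmJ x).1 hx)
  have key := hS J (fun x hx hxS => hIS (some x) ((hmJ x).1 hx) (mem_image_of_mem _ hxS))
    (fun x hx => by
      have := hodd (some x) ((hmJ x).1 hx)
      rwa [dg_st, st_some (hxv x hx)] at this)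
    (fun x hx y hy hadj => by
      apply hind (some x) ((hmJ x).1 hx) (some y) ((hmJ y).1 hy)
      obtain ⟨hne, e, he⟩ := hadj
      refine ⟨fun h => hne (Option.some.inj h), e, ?_⟩
      rw [mv_eq_some, mv_eq_some, mv_eq_some, mv_eq_some]
      have hx' := hxv x hx
      have hy' := hxv y hy
      simp only [hx', hy', and_false, not_false_eq_true, and_true]
      exact he)
  rw [hIJ, card_image_of_injective _ (Option.some_injective _),
    card_image_of_injective _ (Option.some_injective _)]
  exact key

theorem mu_mv {src dst : E → V} {v : V} (hv : Even (dg src dst v)) (hv4 : 4 ≤ dg src dst v)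
    {e1 e2 : E} (h1 : e1 ∈ st src dst v) (h2 : e2 ∈ st src dst v) (h12 : e1 ≠ e2) :
    mu (mv v {e1, e2} src) (mv v {e1, e2} dst) < mu src dst := by
  have hA : ({e1, e2} : Finset E) ⊆ st src dst v := by
    intro e he
    rw [mem_insert, mem_singleton] at he
    rcases he with rfl | rfl
    · exact h1
    · exact h2
  have hA2 : ({e1, e2} : Finset E).card = 2 := card_pair h12
  unfold mu
  rw [Fintype.sum_option]
  have h0 : (if Even (dg (mv v {e1, e2} src) (mv v {e1, e2} dst) none) then
      dg (mv v {e1, e2} src) (mv v {e1, e2} dst) none - 2 else 0) = 0 := by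
    rw [dg_st, st_none hA, hA2]
    rfl
  rw [h0, zero_add]
  refine sum_lt_sum (fun x _ => ?_) ⟨v, mem_univ _, ?_⟩
  · by_cases hx : x = v
    · subst hx
      rw [dg_st, st_v, card_sdiff_of_subset hA, hA2, dg_st]
      rw [dg_st] at hv
      rw [if_pos hv]
      split_ifs <;> omega
    · rw [dg_st, st_some hx, dg_st]
  · rw [dg_st, st_v, card_sdiff_of_subset hA, hA2, dg_st]
    rw [dg_st] at hv hv4
    rw [if_pos hv]
    split_ifs <;> omega

end

/-- **Flows for the class `ClO`.** -/
theorem flow_of_mu (n : ℕ) : ∀ (V E : Type) [Fintype V] [DecidableEq V] [Fintype E]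
    [DecidableEq E] (src dst : E → V), mu src dst = n → ClO src dst → Br src dst ∅ ∅ →
    FlowOn src dst ∅ ∅ := by
  induction n using Nat.strong_induction_on with
  | _ n ih =>
  intro V E _ _ _ _ src dst hn hcl hbr
  by_cases h : ∃ v, Even (dg src dst v) ∧ 4 ≤ dg src dst v
  · obtain ⟨v, hv, hv4⟩ := h
    obtain ⟨e1, h1, e2, h2, h12, hg⟩ := good_pair src dst hbr v hv4
    apply flow_mv (v := v) (A := {e1, e2})
    exact ih _ (hn ▸ mu_mv hv hv4 h1 h2 h12) (Option V) E _ _ rfl (clO_mv hcl hv h1 h2 h12)
      (br_mv hbr h1 h2 h12 hg)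
  · push Not at h
    refine flow_of_ClJ contract_all src dst ?_ hbr
    obtain ⟨S, hS⟩ := hcl
    refine ⟨S, fun I a b c => hS I a (fun x hx => ?_) c⟩
    by_contra hodd
    rw [Nat.not_odd_iff_even] at hodd
    have h1 := h x hodd
    have h2 := b x hx
    rw [Nat.even_iff] at hodd
    omega

theorem flow_of_ClO {V E : Type} [Fintype V] [DecidableEq V] [Fintype E] [DecidableEq E]
    (src dst : E → V) (hcl : ClO src dst) (hbr : Br src dst ∅ ∅) : FlowOn src dst ∅ ∅ :=
  flow_of_mu _ V E src dst rfl hcl hbr

section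

variable {V E : Type} [Fintype V] [DecidableEq V] [Fintype E] [DecidableEq E]

/-- graphs with at most eleven proper edges -/
theorem flow_small (src dst : E → V) (S : Finset E) (hS : S.card ≤ 11)
    (hl : ∀ e, e ∉ S → src e = dst e) (hbr : Br src dst ∅ ∅) : FlowOn src dst ∅ ∅ := by
  refine flow_of_ClJ contract_all src dst ⟨∅, fun I _ hI _ => ?_⟩ hbr
  have h1 : I ⊆ S.image src ∪ S.image dst := by
    intro x hx
    have h2 := hI x hx
    have h3 : 0 < (st src dst x).card := by
      rw [← dg_st]
      omega
    obtain ⟨e, he⟩ := card_pos.1 h3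
    rw [mem_st] at he
    have heS : e ∈ S := by
      by_contra h
      exact he.1 (hl e h)
    rcases he.2 with h | h
    · exact mem_union_left _ (mem_image.2 ⟨e, heS, h⟩)
    · exact mem_union_right _ (mem_image.2 ⟨e, heS, h⟩)
  have h2 := (card_le_card h1).trans (card_union_le _ _)
  have h3 : (S.image src).card ≤ S.card := card_image_le
  have h4 : (S.image dst).card ≤ S.card := card_image_le
  rw [card_empty]
  omega

/-- one step of the chain -/
theorem step_up (src dst : E → V) (F C : Finset E) (hC : (C \ F).card ≤ 11)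
    (hb : ∀ Y : Finset V, Disjoint (crs src dst Y) F → (crs src dst Y ∩ C).card ≠ 1)
    (h : FlowOn src dst ∅ (F ∪ C)) : FlowOn src dst ∅ F := by
  obtain ⟨D, hD⟩ : ∃ D : Finset E, D = (F ∪ C)ᶜ := ⟨_, rfl⟩
  have hFD : ∀ e ∈ F, e ∉ D := fun e he h => by
    rw [hD, mem_compl] at h
    exact h (mem_union_left _ he)
  obtain ⟨r, hr1, hr2, -⟩ := Local11.quot src (Pool.Agent.TH676.Z.lp src dst D) F
  have hr1' : ∀ e ∈ F, r (src e) = r (dst e) := by
    intro e he
    have := hr1 e he
    rwa [Pool.Agent.TH676.Z.lp, if_neg (hFD e he)] at this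
  have hbr : Br (r ∘ src) (r ∘ Pool.Agent.TH676.Z.lp src dst D) ∅ ∅ := by
    intro Y _
    rw [sdiff_empty]
    have h1 : crs (r ∘ src) (r ∘ Pool.Agent.TH676.Z.lp src dst D) Y =
        crs src dst (univ.filter (fun x => r x ∈ Y)) ∩ C := by
      ext e
      rw [mem_crs, mem_inter, mem_crs]
      simp only [Function.comp, mem_filter, mem_univ, true_and]
      unfold Pool.Agent.TH676.Z.lp
      by_cases heD : e ∈ D
      · rw [if_pos heD]
        have : e ∉ C := by
          rw [hD, mem_compl, mem_union] at heD
          exact fun h => heD (Or.inr h)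
        simp [this]
      · rw [if_neg heD]
        rw [hD, mem_compl, not_not, mem_union] at heD
        constructor
        · intro h2
          refine ⟨h2, heD.resolve_left fun h3 => h2 ?_⟩
          rw [hr1' e h3]
        · exact fun h2 => h2.1
    rw [h1]
    apply hb
    rw [disjoint_left]
    intro e he heF
    rw [mem_crs] at he
    simp only [mem_filter, mem_univ, true_and] at he
    apply he
    rw [hr1' e heF]
  have hfl := hr2 ∅ (flow_small (r ∘ src) (r ∘ Pool.Agent.TH676.Z.lp src dst D) (C \ F) hC (fun e he => by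
    by_cases h1 : e ∈ F
    · exact hr1' e h1 |>.trans (by simp [Pool.Agent.TH676.Z.lp, hFD e h1])
    · have h2 : e ∈ D := by
        rw [hD, mem_compl, mem_union]
        rintro (h3 | h3)
        · exact h1 h3
        · exact he (mem_sdiff.2 ⟨h3, h1⟩)
      simp [Pool.Agent.TH676.Z.lp, h2]) hbr)
  rw [union_empty] at hfl
  obtain ⟨f, hf1, -, hf3⟩ := hfl
  have hun : F ∪ C \ F = F ∪ C := by
    ext e
    simp only [mem_union, mem_sdiff]
    tauto
  refine trail_all V E src dst F (C \ F) (fun e => if e ∈ D then 0 else f e) (fun v => ?_)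
    (fun e he => ?_) (fun e h1 h2 => ?_) hC (by rw [hun]; exact h)
  · refine Eq.trans ?_ (hf1 v)
    unfold bd
    refine sum_congr rfl fun e _ => ?_
    unfold Pool.Agent.TH676.Z.lp
    by_cases heD : e ∈ D
    · simp [heD]
    · simp [heD]
  · rw [mem_sdiff] at he
    have heD : e ∉ D := by
      rw [hD, mem_compl, not_not]
      exact mem_union_right _ he.1
    show (if e ∈ D then (0 : ZMod 5) else f e) ≠ 0
    rw [if_neg heD]
    exact hf3 e (notMem_empty _) he.2
  · show (if e ∈ D then (0 : ZMod 5) else f e) = 0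
    apply if_pos
    rw [hD, mem_compl, mem_union]
    rintro (h3 | h3)
    · exact h1 h3
    · exact h2 (mem_sdiff.2 ⟨h3, h1⟩)

/-- the union of the sets `C j` with `j < i` -/
def erl {m : ℕ} (C : Fin m → Finset E) (i : Fin m) : Finset E :=
  (univ.filter (fun j => j < i)).biUnion C

/-- the chain -/
theorem chain (src dst : E → V) {m : ℕ} (C : Fin m → Finset E)
    (hC : ∀ i, (C i \ erl C i).card ≤ 11)
    (hb : ∀ i, ∀ Y : Finset V, Disjoint (crs src dst Y) (erl C i) →
      (crs src dst Y ∩ C i).card ≠ 1)
    (h : FlowOn src dst ∅ (univ.biUnion C)) : FlowOn src dst ∅ ∅ := by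
  have key : ∀ k : ℕ, k ≤ m → FlowOn src dst ∅ ((univ.filter (fun j : Fin m => j.val < m - k)).biUnion C) := by
    intro k
    induction k with
    | zero =>
      intro _
      have : (univ.filter (fun j : Fin m => j.val < m - 0)) = univ := by
        ext j
        simp
      rw [this]
      exact h
    | succ k ih =>
      intro hk
      have h1 := ih (by omega)
      obtain ⟨i, hi⟩ : ∃ i : Fin m, i.val = m - (k + 1) := ⟨⟨m - (k + 1), by omega⟩, rfl⟩
      have e1 : erl C i = (univ.filter (fun j : Fin m => j.val < m - (k + 1))).biUnion C := by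
        unfold erl
        congr 1
        ext j
        simp [Fin.lt_def, hi]
      have e2 : (univ.filter (fun j : Fin m => j.val < m - k)).biUnion C = erl C i ∪ C i := by
        ext e
        simp only [e1, mem_biUnion, mem_filter, mem_univ, true_and, mem_union]
        constructor
        · rintro ⟨j, hj, he⟩
          by_cases h2 : j = i
          · right
            rwa [← h2]
          · left
            refine ⟨j, ?_, he⟩
            have : j.val ≠ i.val := fun h => h2 (Fin.ext h)
            omega
        · rintro (⟨j, hj, he⟩ | he)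
          · exact ⟨j, by omega, he⟩
          · exact ⟨i, by omega, he⟩
      rw [e2] at h1
      rw [← e1]
      exact step_up src dst (erl C i) (C i) (hC i) (hb i) h1
  have h1 := key m le_rfl
  have : (univ.filter (fun j : Fin m => j.val < m - m)) = ∅ := by
    ext j
    simp
  rw [this, biUnion_empty] at h1
  exact h1

/-- the component of `x` -/
noncomputable def cmp (src dst : E → V) (F : Finset E) (x : V) : Finset V :=
  open Classical in univ.filter (fun y =>
    Relation.EqvGen (fun a b => ∃ e ∈ F, src e = a ∧ dst e = b) x y)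

theorem mem_cmp {src dst : E → V} {F : Finset E} {x y : V} : y ∈ cmp src dst F x ↔
    Relation.EqvGen (fun a b => ∃ e ∈ F, src e = a ∧ dst e = b) x y := by
  classical
  unfold cmp
  rw [mem_filter]
  exact ⟨fun h => h.2, fun h => ⟨mem_univ _, h⟩⟩

/-- contraction of the components of `F` -/
theorem flow_quot (src dst : E → V) (F : Finset E) (S : Finset (Finset V)) (hbr : Br src dst ∅ ∅)
    (hI : ∀ I : Finset (Finset V), (∀ X ∈ I, X ∉ S ∧ (∃ x, X = cmp src dst F x) ∧
      Odd (crs src dst X).card) → (∀ X ∈ I, ∀ Y ∈ I, X ≠ Y → ∀ e, ¬ (src e ∈ X ∧ dst e ∈ Y)) →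
      2 * I.card + S.card ≤ 125) : FlowOn src dst ∅ F := by
  classical
  obtain ⟨r, hr1, hr2, hr3⟩ := Local11.quot src dst F
  have hfib : ∀ x, univ.filter (fun y => r y = r x) = cmp src dst F x := by
    intro x
    ext y
    rw [mem_filter, mem_cmp]
    constructor
    · rintro ⟨-, h⟩
      rw [← mem_cmp]
      refine (hr3 (cmp src dst F x) ?_ x y h.symm).1 (mem_cmp.2 (Relation.EqvGen.refl _))
      rw [disjoint_left]
      intro e he heF
      rw [mem_crs, mem_cmp, mem_cmp] at he
      apply he
      constructor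
      · exact fun h => h.trans _ _ _ (Relation.EqvGen.rel _ _ ⟨e, heF, rfl, rfl⟩)
      · exact fun h => h.trans _ _ _ ((Relation.EqvGen.rel _ _ ⟨e, heF, rfl, rfl⟩).symm _ _)
    · intro h
      refine ⟨mem_univ _, ?_⟩
      induction h with
      | rel a b hab =>
        obtain ⟨e, he, rfl, rfl⟩ := hab
        exact (hr1 e he).symm
      | refl a => rfl
      | symm a b _ ih => exact ih.symm
      | trans a b c _ _ i1 i2 => exact i2.trans i1
  obtain ⟨g, hg⟩ : ∃ g : V → Finset V, g = fun w => univ.filter (fun y => r y = w) := ⟨_, rfl⟩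
  have hgx : ∀ x, g (r x) = cmp src dst F x := fun x => by rw [hg]; exact hfib x
  have hmg : ∀ x w, x ∈ g w ↔ r x = w := fun x w => by simp [hg]
  have hst : ∀ w, st (r ∘ src) (r ∘ dst) w = crs src dst (g w) := by
    intro w
    ext e
    rw [mem_st, mem_crs, hmg, hmg]
    simp only [Function.comp]
    constructor
    · rintro ⟨h1, h2 | h2⟩ h3
      · exact h1 (h2.trans (h3.1 h2).symm)
      · exact h1 ((h3.2 h2).trans h2.symm)
    · intro h
      refine ⟨fun h2 => h ?_, ?_⟩
      · rw [h2]
      · by_contra h3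
        push Not at h3
        exact h ⟨fun h4 => absurd h4 h3.1, fun h4 => absurd h4 h3.2⟩
  have hginj : ∀ x y w, r x = w → g w = g y → w = y := by
    intro x y w h1 h2
    have h3 : x ∈ g w := (hmg x w).2 h1
    rw [h2, hmg] at h3
    exact h1.symm.trans h3
  have hbr' : Br (r ∘ src) (r ∘ dst) ∅ ∅ := by
    intro Y _
    rw [sdiff_empty]
    have h1 : crs (r ∘ src) (r ∘ dst) Y = crs src dst (univ.filter (fun x => r x ∈ Y)) := by
      ext e
      rw [mem_crs, mem_crs]
      simp
    rw [h1]
    have := hbr (univ.filter (fun x => r x ∈ Y)) (disjoint_empty_right _)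
    rwa [sdiff_empty] at this
  have hcl : ClO (r ∘ src) (r ∘ dst) := by
    refine ⟨univ.filter (fun w => (∃ x, r x = w) ∧ g w ∈ S), fun I h1 h2 h3 => ?_⟩
    have hran : ∀ w ∈ I, ∃ x, r x = w := by
      intro w hw
      have h4 := h2 w hw
      have h5 : 0 < (st (r ∘ src) (r ∘ dst) w).card := by
        rw [← dg_st]
        exact h4.pos
      obtain ⟨e, he⟩ := card_pos.1 h5
      rw [mem_st] at he
      rcases he.2 with h | h
      · exact ⟨_, h⟩
      · exact ⟨_, h⟩
    have hcI : (I.image g).card = I.card := by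
      rw [card_image_iff]
      intro w hw w' hw' h
      obtain ⟨x, hx⟩ := hran w hw
      exact hginj x w' w hx h
    have hcS : (univ.filter (fun w => (∃ x, r x = w) ∧ g w ∈ S)).card ≤ S.card := by
      apply card_le_card_of_injOn g
      · intro w hw
        exact (mem_filter.1 hw).2.2
      · intro w hw w' hw' h
        obtain ⟨x, hx⟩ := (mem_filter.1 hw).2.1
        exact hginj x w' w hx h
    have key := hI (I.image g) (fun X hX => ?_) (fun X hX Y hY hne e he => ?_)
    · rw [hcI] at key
      omega
    · obtain ⟨w, hw, rfl⟩ := mem_image.1 hX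
      obtain ⟨x, hx⟩ := hran w hw
      refine ⟨fun h => h1 w hw (mem_filter.2 ⟨mem_univ _, ⟨x, hx⟩, h⟩), ⟨x, ?_⟩, ?_⟩
      · rw [← hgx, hx]
      · rw [← hst]
        exact h2 w hw
    · obtain ⟨w, hw, rfl⟩ := mem_image.1 hX
      obtain ⟨w', hw', rfl⟩ := mem_image.1 hY
      rw [hmg, hmg] at he
      refine h3 w hw w' hw' ⟨fun h => hne (by rw [h]), e, Or.inl he⟩
  have := hr2 ∅ (flow_of_ClO (r ∘ src) (r ∘ dst) hcl hbr')
  rwa [union_empty] at this

end

end Pool.Agent.K3h76.OV
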