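import Pool.Agent.TH676.Z.Crit

set_option autoImplicit false
set_option linter.unusedSectionVars false

/-!
# Vertices of degree at least four can be split

In a bridgeless graph every vertex `v` with at least four proper edges has two proper edges which
can be moved from `v` to a new vertex such that the graph remains bridgeless.
-/

namespace Pool.Agent.K3h76.OV

open Finset Pool.Agent.TH676.Z Pool.Agent.TH676.Z.Crit

variable {V E : Type} [Fintype V] [DecidableEq V] [Fintype E] [DecidableEq E]

theorem card_crs (src dst : E → V) (Y : Finset V) :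
    (crs src dst Y).card = ∑ e, if (src e ∈ Y ↔ dst e ∈ Y) then 0 else 1 := by
  unfold crs
  rw [card_filter]
  exact sum_congr rfl fun e _ => by split_ifs <;> simp_all

theorem crs_compl (src dst : E → V) (Y : Finset V) : crs src dst Yᶜ = crs src dst Y := by
  ext e
  rw [mem_crs, mem_crs, mem_compl, mem_compl, not_iff_not]
  exact not_iff_not

/-- the proper edges at `v` -/
def st (src dst : E → V) (v : V) : Finset E :=
  univ.filter (fun e => src e ≠ dst e ∧ (src e = v ∨ dst e = v))

theorem mem_st {src dst : E → V} {v : V} {e : E} :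
    e ∈ st src dst v ↔ src e ≠ dst e ∧ (src e = v ∨ dst e = v) := by simp [st]

/-- submodularity -/
theorem subm (src dst : E → V) (Y Z : Finset V) :
    (crs src dst (Y ∩ Z)).card + (crs src dst (Y ∪ Z)).card ≤
      (crs src dst Y).card + (crs src dst Z).card := by
  rw [card_crs, card_crs, card_crs, card_crs, ← sum_add_distrib, ← sum_add_distrib]
  refine sum_le_sum fun e _ => ?_
  simp only [mem_inter, mem_union]
  by_cases h1 : src e ∈ Y <;> by_cases h2 : src e ∈ Z <;> by_cases h3 : dst e ∈ Y <;>
    by_cases h4 : dst e ∈ Z <;> simp [h1, h2, h3, h4]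

/-- posimodularity, with an edge between `Y ∩ Z` and the vertices outside `Y ∪ Z` -/
theorem posim (src dst : E → V) (Y Z : Finset V) (e1 : E)
    (h : (src e1 ∈ Y ∧ src e1 ∈ Z ∧ dst e1 ∉ Y ∧ dst e1 ∉ Z) ∨
      (dst e1 ∈ Y ∧ dst e1 ∈ Z ∧ src e1 ∉ Y ∧ src e1 ∉ Z)) :
    (crs src dst (Y \ Z)).card + (crs src dst (Z \ Y)).card + 2 ≤
      (crs src dst Y).card + (crs src dst Z).card := by
  have h2 : (2 : ℕ) = ∑ e : E, if e = e1 then 2 else 0 := by simp
  rw [card_crs, card_crs, card_crs, card_crs, ← sum_add_distrib, ← sum_add_distrib, h2,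
    ← sum_add_distrib]
  refine sum_le_sum fun e _ => ?_
  simp only [mem_sdiff]
  by_cases he : e = e1
  · subst he
    rcases h with ⟨h1, h2, h3, h4⟩ | ⟨h1, h2, h3, h4⟩ <;> simp [h1, h2, h3, h4]
  · by_cases h1 : src e ∈ Y <;> by_cases h2 : src e ∈ Z <;> by_cases h3 : dst e ∈ Y <;>
      by_cases h4 : dst e ∈ Z <;> simp [h1, h2, h3, h4, he]

theorem parity (src dst : E → V) (Y Z : Finset V) :
    Even ((crs src dst Y).card + (crs src dst (Y ∩ Z)).card + (crs src dst (Y \ Z)).card) := by
  rw [card_crs, card_crs, card_crs, ← sum_add_distrib, ← sum_add_distrib]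
  refine Finset.even_sum _ fun e _ => ?_
  simp only [mem_inter, mem_sdiff]
  by_cases h1 : src e ∈ Y <;> by_cases h2 : src e ∈ Z <;> by_cases h3 : dst e ∈ Y <;>
    by_cases h4 : dst e ∈ Z <;> simp [h1, h2, h3, h4]

/-- the other end -/
def oe (src dst : E → V) (v : V) (e : E) : V := if src e = v then dst e else src e

theorem crs_st {src dst : E → V} {v : V} {e : E} (he : e ∈ st src dst v) {Y : Finset V}
    (hv : v ∉ Y) : e ∈ crs src dst Y ↔ oe src dst v e ∈ Y := by
  rw [mem_st] at he
  rw [mem_crs]
  unfold oe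
  by_cases h : src e = v
  · rw [if_pos h, h]
    tauto
  · rw [if_neg h, he.2.resolve_left h]
    tauto

theorem posim' {src dst : E → V} {v : V} {e1 : E} (he : e1 ∈ st src dst v) {Y Z : Finset V}
    (hY : v ∉ Y) (hZ : v ∉ Z) (h1 : oe src dst v e1 ∈ Y) (h2 : oe src dst v e1 ∈ Z) :
    (crs src dst (Y \ Z)).card + (crs src dst (Z \ Y)).card + 2 ≤
      (crs src dst Y).card + (crs src dst Z).card := by
  apply posim src dst Y Z e1
  rw [mem_st] at he
  unfold oe at h1 h2
  by_cases h : src e1 = v
  · rw [if_pos h] at h1 h2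
    right
    rw [h]
    exact ⟨h1, h2, hY, hZ⟩
  · rw [if_neg h] at h1 h2
    left
    rw [he.2.resolve_left h]
    exact ⟨h1, h2, hY, hZ⟩

/-- there are two edges at `v` which are not in a cut with three edges -/
theorem good_pair (src dst : E → V) (hb : Br src dst ∅ ∅) (v : V)
    (hv : 4 ≤ (st src dst v).card) :
    ∃ e1 ∈ st src dst v, ∃ e2 ∈ st src dst v, e1 ≠ e2 ∧
      ∀ Y : Finset V, v ∉ Y → (crs src dst Y).card = 3 → e1 ∈ crs src dst Y →
        e2 ∉ crs src dst Y := by
  classical
  by_contra hcon
  push Not at hcon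
  have hb1 : ∀ Y : Finset V, (crs src dst Y).card ≠ 1 := by
    intro Y
    have := hb Y (disjoint_empty_right _)
    rwa [sdiff_empty] at this
  -- the sets
  set P : Finset (Finset V) := univ.filter (fun Y => v ∉ Y ∧ (crs src dst Y).card = 3 ∧
    ∃ e1 ∈ st src dst v, ∃ e2 ∈ st src dst v, e1 ≠ e2 ∧ e1 ∈ crs src dst Y ∧
      e2 ∈ crs src dst Y) with hP
  have hPne : P.Nonempty := by
    obtain ⟨e1, h1, e2, h2, h12⟩ := one_lt_card.1 (show 1 < (st src dst v).card by omega)
    obtain ⟨Y, hY1, hY2, hY3, hY4⟩ := hcon e1 h1 e2 h2 h12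
    exact ⟨Y, mem_filter.2 ⟨mem_univ _, hY1, hY2, e1, h1, e2, h2, h12, hY3, hY4⟩⟩
  obtain ⟨Y, hYP, hmax⟩ := exists_max_image P Finset.card hPne
  obtain ⟨-, hvY, hY3, e1, h1, e2, h2, h12, h1Y, h2Y⟩ := mem_filter.1 hYP
  obtain ⟨e4, h4, h4Y⟩ : ∃ e4 ∈ st src dst v, e4 ∉ crs src dst Y := by
    by_contra h
    push Not at h
    have := card_le_card (show st src dst v ⊆ crs src dst Y from fun e he => h e he)
    omega
  have h14 : e1 ≠ e4 := fun h => h4Y (h ▸ h1Y)
  have h24 : e2 ≠ e4 := fun h => h4Y (h ▸ h2Y)
  obtain ⟨Z, hvZ, hZ3, h1Z, h4Z⟩ := hcon e1 h1 e4 h4 h14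
  have hvU : v ∉ Y ∪ Z := by
    rw [mem_union]
    exact fun h => h.elim hvY hvZ
  have hvI : v ∉ Y ∩ Z := fun h => hvY (mem_inter.1 h).1
  have o1Y := (crs_st h1 hvY).1 h1Y
  have o1Z := (crs_st h1 hvZ).1 h1Z
  have o2Y := (crs_st h2 hvY).1 h2Y
  have o4Z := (crs_st h4 hvZ).1 h4Z
  have o4Y : oe src dst v e4 ∉ Y := fun h => h4Y ((crs_st h4 hvY).2 h)
  -- the union
  have hU1 : e1 ∈ crs src dst (Y ∪ Z) := (crs_st h1 hvU).2 (mem_union_left _ o1Y)
  have hU2 : e2 ∈ crs src dst (Y ∪ Z) := (crs_st h2 hvU).2 (mem_union_left _ o2Y)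
  have hU4 : e4 ∈ crs src dst (Y ∪ Z) := (crs_st h4 hvU).2 (mem_union_right _ o4Z)
  have hU : 3 ≤ (crs src dst (Y ∪ Z)).card := by
    have : ({e1, e2, e4} : Finset E) ⊆ crs src dst (Y ∪ Z) := by
      intro e he
      simp only [mem_insert, mem_singleton] at he
      rcases he with rfl | rfl | rfl
      · exact hU1
      · exact hU2
      · exact hU4
    have h5 := card_le_card this
    rwa [card_eq_three.2 ⟨e1, e2, e4, h12, h14, h24, rfl⟩] at h5
  have hlt : Y.card < (Y ∪ Z).card :=
    card_lt_card ⟨subset_union_left, fun h => o4Y (h (mem_union_right _ o4Z))⟩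
  have hU4' : (crs src dst (Y ∪ Z)).card ≠ 3 := by
    intro h
    have := hmax (Y ∪ Z) (mem_filter.2 ⟨mem_univ _, hvU, h, e1, h1, e2, h2, h12,
      hU1, hU2⟩)
    omega
  have hs := subm src dst Y Z
  have hp := posim' h1 hvY hvZ o1Y o1Z
  have k1 := parity src dst Y Z
  have k2 := parity src dst Z Y
  rw [inter_comm Z Y] at k2
  have b1 := hb1 (Y ∩ Z)
  have b2 := hb1 (Y \ Z)
  have b3 := hb1 (Z \ Y)
  have hI : 1 ≤ (crs src dst (Y ∩ Z)).card := by
    rw [Nat.one_le_iff_ne_zero, ← pos_iff_ne_zero, card_pos]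
    exact ⟨e1, (crs_st h1 hvI).2 (mem_inter.2 ⟨o1Y, o1Z⟩)⟩
  rw [Nat.even_iff] at k1 k2
  omega

/-! ## The split graph -/

/-- the ends of the edges in `A` at `v` are moved to the new vertex -/
def mv (v : V) (A : Finset E) (src : E → V) (e : E) : Option V :=
  if e ∈ A ∧ src e = v then none else some (src e)

theorem mv_eq_none {v : V} {A : Finset E} {src : E → V} {e : E} :
    mv v A src e = none ↔ e ∈ A ∧ src e = v := by
  unfold mv
  split_ifs with h <;> simp [h]

theorem mv_eq_some {v : V} {A : Finset E} {src : E → V} {e : E} {x : V} :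
    mv v A src e = some x ↔ src e = x ∧ ¬ (e ∈ A ∧ x = v) := by
  unfold mv
  split_ifs with h
  · simp only [reduceCtorEq, false_iff]
    rintro ⟨rfl, h2⟩
    exact h2 h
  · simp only [Option.some.injEq]
    constructor
    · rintro rfl
      exact ⟨rfl, h⟩
    · exact fun h => h.1

/-- the flow of the split graph is a flow -/
theorem flow_mv {src dst : E → V} {v : V} {A : Finset E}
    (h : FlowOn (mv v A src) (mv v A dst) ∅ ∅) : FlowOn src dst ∅ ∅ := by
  obtain ⟨f, h1, h2, h3⟩ := h
  refine ⟨f, fun x => ?_, h2, h3⟩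
  by_cases hx : x = v
  · subst hx
    have h4 := h1 (some x)
    have h5 := h1 none
    unfold bd at h4 h5 ⊢
    have h6 : ∑ e, ((if src e = x then f e else 0) - (if dst e = x then f e else 0)) =
      ∑ e, ((if mv x A src e = some x then f e else 0) - (if mv x A dst e = some x then f e else 0))
      + ∑ e, ((if mv x A src e = none then f e else 0) -
        (if mv x A dst e = none then f e else 0)) := by
      rw [← sum_add_distrib]
      refine sum_congr rfl fun e _ => ?_
      simp only [mv_eq_none, mv_eq_some]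
      by_cases a : src e = x <;> by_cases b : dst e = x <;> by_cases c : e ∈ A <;> simp [a, b, c]
    rw [h6, h4, h5, add_zero]
  · rw [← h1 (some x)]
    unfold bd
    refine sum_congr rfl fun e _ => ?_
    simp only [mv_eq_some]
    simp [hx]

theorem br_mv {src dst : E → V} (hb : Br src dst ∅ ∅) {v : V} {e1 e2 : E}
    (h1 : e1 ∈ st src dst v) (h2 : e2 ∈ st src dst v) (h12 : e1 ≠ e2)
    (hg : ∀ Y : Finset V, v ∉ Y → (crs src dst Y).card = 3 → e1 ∈ crs src dst Y →
        e2 ∉ crs src dst Y) : Br (mv v {e1, e2} src) (mv v {e1, e2} dst) ∅ ∅ := by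
  classical
  have hb1 : ∀ Y : Finset V, (crs src dst Y).card ≠ 1 := by
    intro Y
    have := hb Y (disjoint_empty_right _)
    rwa [sdiff_empty] at this
  rw [mem_st] at h1 h2
  -- the main case
  have main : ∀ Y : Finset (Option V), none ∈ Y → some v ∉ Y →
      (crs (mv v {e1, e2} src) (mv v {e1, e2} dst) Y).card ≠ 1 := by
    intro Y hn hv hc
    set Y0 : Finset V := univ.filter (fun x => some x ∈ Y) with hY0
    have hm : ∀ x, x ∈ Y0 ↔ some x ∈ Y := fun x => by simp [hY0]
    have hvY : v ∉ Y0 := by rw [hm]; exact hv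
    have key : ∀ e, e ∈ crs (mv v {e1, e2} src) (mv v {e1, e2} dst) Y ↔
        (if e = e1 ∨ e = e2 then e ∉ crs src dst Y0 else e ∈ crs src dst Y0) := by
      intro e
      rw [mem_crs, mem_crs]
      by_cases he : e = e1 ∨ e = e2
      · rw [if_pos he]
        have hst : src e ≠ dst e ∧ (src e = v ∨ dst e = v) := by
          rcases he with rfl | rfl
          · exact h1
          · exact h2
        have heA : e ∈ ({e1, e2} : Finset E) := by simpa using he
        obtain ⟨hne, h5 | h5⟩ := hst
        · have h6 : mv v {e1, e2} src e = none := mv_eq_none.2 ⟨heA, h5⟩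
          have h7 : mv v {e1, e2} dst e = some (dst e) :=
            mv_eq_some.2 ⟨rfl, fun h => hne (h5.trans h.2.symm)⟩
          rw [h6, h7, h5, ← hm]
          tauto
        · have h6 : mv v {e1, e2} dst e = none := mv_eq_none.2 ⟨heA, h5⟩
          have h7 : mv v {e1, e2} src e = some (src e) :=
            mv_eq_some.2 ⟨rfl, fun h => hne (h.2.trans h5.symm)⟩
          rw [h6, h7, h5, ← hm]
          tauto
      · rw [if_neg he]
        have heA : e ∉ ({e1, e2} : Finset E) := by simpa using he
        have h6 : mv v {e1, e2} dst e = some (dst e) := mv_eq_some.2 ⟨rfl, fun h => heA h.1⟩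
        have h7 : mv v {e1, e2} src e = some (src e) := mv_eq_some.2 ⟨rfl, fun h => heA h.1⟩
        rw [h6, h7, ← hm, ← hm]
    obtain ⟨a, ha⟩ := card_eq_one.1 hc
    have ka : ∀ e, e ∈ crs (mv v {e1, e2} src) (mv v {e1, e2} dst) Y ↔ e = a := by
      intro e
      rw [ha, mem_singleton]
    by_cases h5 : a = e1
    · apply hb1 Y0
      rw [card_eq_one]
      refine ⟨e2, ?_⟩
      ext e
      rw [mem_singleton]
      have h6 := (key e).symm.trans (ka e)
      by_cases he1 : e = e1
      · rw [if_pos (Or.inl he1)] at h6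
        subst he1
        simp only [h5, iff_true] at h6
        exact ⟨fun h => absurd h h6, fun h => absurd h h12⟩
      · by_cases he2 : e = e2
        · rw [if_pos (Or.inr he2)] at h6
          simp only [h5, he1, iff_false, not_not] at h6
          exact ⟨fun _ => he2, fun _ => h6⟩
        · rw [if_neg (by tauto)] at h6
          simp only [h5, he1, iff_false] at h6
          exact ⟨fun h => absurd h h6, fun h => absurd h he2⟩
    · by_cases h6 : a = e2
      · apply hb1 Y0
        rw [card_eq_one]
        refine ⟨e1, ?_⟩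
        ext e
        rw [mem_singleton]
        have h7 := (key e).symm.trans (ka e)
        by_cases he2 : e = e2
        · rw [if_pos (Or.inr he2)] at h7
          subst he2
          simp only [h6, iff_true] at h7
          exact ⟨fun h => absurd h h7, fun h => absurd h h12.symm⟩
        · by_cases he1 : e = e1
          · rw [if_pos (Or.inl he1)] at h7
            simp only [h6, he2, iff_false, not_not] at h7
            exact ⟨fun _ => he1, fun _ => h7⟩
          · rw [if_neg (by tauto)] at h7
            simp only [h6, he2, iff_false] at h7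
            exact ⟨fun h => absurd h h7, fun h => absurd h he1⟩
      · have k1 : e1 ∈ crs src dst Y0 := by
          have h7 := (key e1).symm.trans (ka e1)
          rw [if_pos (Or.inl rfl)] at h7
          by_contra h8
          exact h5 (h7.1 h8).symm
        have k2 : e2 ∈ crs src dst Y0 := by
          have h7 := (key e2).symm.trans (ka e2)
          rw [if_pos (Or.inr rfl)] at h7
          by_contra h8
          exact h6 (h7.1 h8).symm
        refine hg Y0 hvY ?_ k1 k2
        rw [card_eq_three]
        refine ⟨e1, e2, a, h12, Ne.symm h5, Ne.symm h6, ?_⟩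
        ext e
        simp only [mem_insert, mem_singleton]
        have h7 := (key e).symm.trans (ka e)
        by_cases he1 : e = e1
        · subst he1
          simp [k1]
        · by_cases he2 : e = e2
          · subst he2
            simp [k2]
          · rw [if_neg (by tauto)] at h7
            rw [h7]
            tauto
  intro Y _
  rw [sdiff_empty]
  by_cases hn : none ∈ Y
  · by_cases hv : some v ∈ Y
    · -- both in
      have h3 : crs (mv v {e1, e2} src) (mv v {e1, e2} dst) Y =
          crs src dst (univ.filter (fun x => some x ∈ Y)) := by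
        have hm : ∀ (s : E → V) (e : E), mv v {e1, e2} s e ∈ Y ↔ some (s e) ∈ Y := by
          intro s e
          unfold mv
          split_ifs with h
          · rw [h.2]
            exact ⟨fun _ => hv, fun _ => hn⟩
          · rfl
        ext e
        rw [mem_crs, mem_crs, hm, hm]
        simp
      rw [h3]
      exact hb1 _
    · exact main Y hn hv
  · by_cases hv : some v ∈ Y
    · rw [← crs_compl]
      exact main Yᶜ (by simpa using hn) (by simpa using hv)
    · have h3 : crs (mv v {e1, e2} src) (mv v {e1, e2} dst) Y =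
          crs src dst (univ.filter (fun x => some x ∈ Y)) := by
        have hm : ∀ (s : E → V) (e : E), mv v {e1, e2} s e ∈ Y ↔ some (s e) ∈ Y := by
          intro s e
          unfold mv
          split_ifs with h
          · rw [h.2]
            exact ⟨fun h => absurd h hn, fun h => absurd h hv⟩
          · rfl
        ext e
        rw [mem_crs, mem_crs, hm, hm]
        simp
      rw [h3]
      exact hb1 _

end Pool.Agent.K3h76.OV
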